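import Pool.Agent.V8H26.YM.Chn

/-!
# The kernel of the form, if the degree is even
-/

set_option autoImplicit false
set_option linter.all false

namespace Pool.Agent.V8H26.YM

open Module Finset
open Pool.Agent.V8H26.XL hiding fm fm_symm fm_rep fm_x fm_xj fm_rest fm_new fm_diag fm_va fm_self
  Ph MM_Ph_le Lf kr_zero fm_ws FB FB_apply r0 clA
open Pool.Agent.V8H26.YL (DE dt dt_apply dt_comm fm fm_eq fm_symm fm_rep fm_x fm_xj fm_rest fm_new fm_diag
  fm_va fm_self sp Cvp FB FB_apply FB_eq r0 clA Eb Eb_TT)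
open Pool.Agent.Y164.PS (W om om_add_left om_add_right om_comm om_self om_zero_left om_zero_right Oq ee
  om_smul_left om_smul_right eq_zero_of_om W_add_self Dat V ks dg ws dg_ws lab ks_add dg_add sg sg_add
  sg_zero sg_one abs_sg FF_split FF_add_left FF_add_right FF_comm TT dg_TT FF_eq E1_TT E2_TT
  om_ks_comm FF_zero_left)
open Pool.Agent.V8H64.FF (Phi phi_comm phi_add_left phi_smul_left om_odd)
open scoped Classical

section
variable {ι τ : Type} [Fintype ι] [Fintype τ] {D : DE τ} {d : ι → ZMod 2}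

theorem TT_add (y y' : W) : (TT D.toDat (y + y') : V ι τ) = TT D.toDat y + TT D.toDat y' :=
  Prod.ext (funext fun i => rfl) (funext fun s => om_add_left _ _ _)

theorem TT_zero : (TT D.toDat 0 : V ι τ) = 0 := Prod.ext rfl (funext fun s => om_zero_left _)

theorem TT_smul (c : ZMod 2) (y : W) : (TT D.toDat (c • y) : V ι τ) = c • TT D.toDat y := by
  rcases F2c c with rfl | rfl
  · rw [zero_smul, zero_smul, TT_zero]
  · rw [one_smul, one_smul]

/-- **the kernel, with one index eliminated** -/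
theorem r0_eq {a : Arr ι τ} (hcl : clA D a) (hN : ∑ i, d i + D.N = 0) (j : ι) :
    r0 D d a = rho (fm D d a 0) (US D d (univ.erase j)) + 2 := by
  have hdT : ∀ y : W, dg D.toDat d (TT D.toDat y) = 0 := fun y => by rw [dg_TT, hN, zero_smul]
  have hFT : ∀ (y : W) (w' : V ι τ),
      FB D d a (TT D.toDat y) w' = om (ks D.l y) (dg D.toDat d w') := fun y w' =>
    FB_eq D d a _ _ (fun i => E1_TT D.toDat a.B d y i) (fun s => Eb_TT D hcl y s) w'
  have hsy : ∀ w w' : V ι τ, FB D d a w w' = FB D d a w' w := fun w w' => by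
    rw [FB_apply, FB_apply, FF_comm D.toDat a.B d a.symm, dt_comm]
  have key : ∀ w w' : V ι τ, dg D.toDat d w' = 0 → FB D d a w w' = fm D d a 0 w w' := by
    intro w w' hw
    rw [fm_eq, XL.fm_apply, Phi, FB_apply, hw, om_zero_right]
    have h0 : ∑ i, (0 : ι → ZMod 2) i * om (w.1 i) (w'.1 i) = 0 := by simp
    rw [h0]
    ring
  have hT0 : ∀ (y : W) (w : V ι τ), dg D.toDat d w = 0 → FB D d a w (TT D.toDat y) = 0 := by
    intro y w hw
    rw [hsy, hFT, hw, om_zero_right]
  have hsplit : ∀ v ∈ V0 D.toDat d, v + TT D.toDat (v.1 j) ∈ US D d (univ.erase j) := by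
    intro v hv
    rw [mem_US]
    refine ⟨?_, fun i hi => ?_⟩
    · rw [dg_add, hdT, (mem_V0 D.toDat d).1 hv, add_zero]
    · have hij : i = j := by
        by_contra h
        exact hi (mem_erase.2 ⟨h, mem_univ _⟩)
      rw [hij]
      exact W_add_self _
  have hback : ∀ v : V ι τ, v + TT D.toDat (v.1 j) + TT D.toDat (v.1 j) = v := fun v => by
    rw [add_assoc, X_self, add_zero]
  obtain ⟨Ψ, hΨ⟩ : ∃ Ψ : (W × kr (fm D d a 0) (US D d (univ.erase j))) →ₗ[ZMod 2] V ι τ,
      ∀ p, Ψ p = TT D.toDat p.1 + p.2.1 :=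
    ⟨{ toFun := fun p => TT D.toDat p.1 + p.2.1
       map_add' := fun p q => by
         show TT D.toDat (p.1 + q.1) + (p.2.1 + q.2.1) = _
         rw [TT_add]
         abel
       map_smul' := fun c p => by
         show TT D.toDat (c • p.1) + c • p.2.1 = c • (TT D.toDat p.1 + p.2.1)
         rw [TT_smul, smul_add] }, fun p => rfl⟩
  have hker : ∀ (y : W) (w : V ι τ), w ∈ kr (fm D d a 0) (US D d (univ.erase j)) →
      TT D.toDat y + w ∈ kr (FB D d a) (V0 D.toDat d) := by
    intro y w hw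
    have hwd := (mem_US.1 hw.1).1
    rw [mem_kr]
    refine ⟨?_, fun v hv => ?_⟩
    · rw [mem_V0, dg_add, hdT, hwd, add_zero]
    · have hvd := (mem_V0 D.toDat d).1 hv
      have h2 := hsplit v hv
      have e1 : FB D d a w (v + TT D.toDat (v.1 j)) = FB D d a w v := by
        rw [map_add, hT0 _ _ hwd, add_zero]
      have e2 : FB D d a w (v + TT D.toDat (v.1 j)) = 0 := by
        rw [key _ _ (mem_US.1 h2).1]
        exact hw.2 _ h2
      have e3 : FB D d a (TT D.toDat y + w) v = FB D d a (TT D.toDat y) v + FB D d a w v := by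
        rw [map_add, LinearMap.add_apply]
      rw [e3, hFT, hvd, om_zero_right, zero_add, ← e1, e2]
  have hker' : ∀ v : V ι τ, v ∈ kr (FB D d a) (V0 D.toDat d) →
      v + TT D.toDat (v.1 j) ∈ kr (fm D d a 0) (US D d (univ.erase j)) := by
    intro v hv
    rw [mem_kr] at hv ⊢
    refine ⟨hsplit v hv.1, fun w' hw' => ?_⟩
    have hw'd := (mem_US.1 hw').1
    have e3 : FB D d a (v + TT D.toDat (v.1 j)) w' =
        FB D d a v w' + FB D d a (TT D.toDat (v.1 j)) w' := by
      rw [map_add, LinearMap.add_apply]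
    rw [← key _ _ hw'd, e3, hFT, hw'd, om_zero_right, add_zero]
    exact hv.2 w' ((mem_V0 D.toDat d).2 hw'd)
  have hmem : ∀ p, Ψ p ∈ kr (FB D d a) (V0 D.toDat d) := fun p => by
    rw [hΨ]
    exact hker p.1 p.2.1 p.2.2
  have hbij : Function.Bijective (LinearMap.codRestrict (kr (FB D d a) (V0 D.toDat d)) Ψ hmem) := by
    constructor
    · rintro ⟨y, ⟨w, hw⟩⟩ ⟨y', ⟨w', hw'⟩⟩ h
      have h1 : Ψ (y, ⟨w, hw⟩) = Ψ (y', ⟨w', hw'⟩) := congrArg Subtype.val h
      rw [hΨ, hΨ] at h1
      have h2 : w.1 j = 0 := hw.1.2 j (notMem_erase j _)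
      have h3 : w'.1 j = 0 := hw'.1.2 j (notMem_erase j _)
      have h4 : y + w.1 j = y' + w'.1 j := congrFun (congrArg Prod.fst h1) j
      rw [h2, h3, add_zero, add_zero] at h4
      subst h4
      have h5 : w = w' := add_left_cancel h1
      subst h5
      rfl
    · rintro ⟨v, hv⟩
      refine ⟨(v.1 j, ⟨v + TT D.toDat (v.1 j), hker' v hv⟩), Subtype.ext ?_⟩
      have h6 : Ψ (v.1 j, ⟨v + TT D.toDat (v.1 j), hker' v hv⟩) = v := by
        rw [hΨ, add_comm]
        exact hback v
      exact h6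
  have h3 := LinearEquiv.finrank_eq (LinearEquiv.ofBijective _ hbij)
  rw [finrank_prod] at h3
  have h4 : finrank (ZMod 2) W = 2 := by
    show finrank (ZMod 2) (ZMod 2 × ZMod 2) = 2
    rw [finrank_prod, finrank_self]
  rw [h4] at h3
  rw [r0, rho, rho, ← h3, add_comm]

/-- the function of an array -/
noncomputable def Ps (D : DE τ) (d : ι → ZMod 2) (F : ℕ → ℝ) (c : ℝ) (a : Arr ι τ) : ℝ :=
  ind (clA D a) * (F (r0 D d a - 2) - c)

theorem Mop_Ps (hN : ∑ i, d i + D.N = 0) (F : ℕ → ℝ) (c : ℝ) (j : ι) (a : Arr ι τ) :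
    Mop j (Ps D d F c) a = 1 / 2 ^ Fintype.card τ * (EE D d F (univ.erase j) 0 a - c) := by
  set b : τ → ZMod 2 := fun s => D.ep s + ∑ i ∈ univ.erase j, a.B i s + D.g s with hb
  set G : (ι → ZMod 2) → ℝ := fun x => F (rho (fm D d (rep j 0 a) x) (US D d (univ.erase j))) - c
    with hG
  have hcl : ∀ v : ι ⊕ τ → ZMod 2, clA D (rep j v a) ↔ (fun s => v (Sum.inr s)) = b := by
    intro v
    rw [funext_iff]
    apply forall_congr'
    intro s
    have h1 : ∑ i, (rep j v a).B i s = v (Sum.inr s) + ∑ i ∈ univ.erase j, a.B i s := by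
      rw [← add_sum_erase univ _ (mem_univ j)]
      congr 1
      · simp [rep]
      · refine sum_congr rfl fun i hi => ?_
        simp [rep, ne_of_mem_erase hi]
    rw [h1, hb]
    have h2 : ∀ e x y z : ZMod 2, e + (x + y) + z = 0 ↔ x = e + y + z := by decide
    exact h2 _ _ _ _
  have h1 : ∀ v : ι ⊕ τ → ZMod 2, Ps D d F c (rep j v a) =
      ind ((fun s => v (Sum.inr s)) = b) * G (fun i => v (Sum.inl i)) := by
    intro v
    rw [Ps]
    by_cases h : clA D (rep j v a)
    · rw [ind_pos h, ind_pos ((hcl v).1 h), one_mul, one_mul, r0_eq h hN j, Nat.add_sub_cancel, hG]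
      show F _ - c = F _ - c
      congr 2
      apply rho_congr
      intro u hu w hw
      have hu' := hu.2 j (notMem_erase j _)
      have hw' := hw.2 j (notMem_erase j _)
      have h2 := fm_rest D d j v a (vh j v) u w hu' hw'
      rw [fun_self] at h2
      rw [h2]
      have h3 := fm_x D d (rep j 0 a) 0 (vh j v) u w
      have h4 := fm_x D d (rep j 0 a) 0 (fun i => v (Sum.inl i)) u w
      rw [zero_add] at h3 h4
      rw [h3, h4]
      congr 1
      refine sum_congr rfl fun i _ => ?_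
      by_cases hij : i = j
      · rw [hij, hu', om_zero_left, mul_zero, mul_zero]
      · rw [vh, if_neg hij]
    · rw [ind_neg h, ind_neg (fun h' => h ((hcl v).2 h')), zero_mul, zero_mul]
  rw [Mop, av_congr h1]
  have h2 := av_equiv (Equiv.sumArrowEquivProdArrow ι τ (ZMod 2))
    (fun p : (ι → ZMod 2) × (τ → ZMod 2) => ind (p.2 = b) * G p.1)
  have h3 : av (fun v : ι ⊕ τ → ZMod 2 => ind ((fun s => v (Sum.inr s)) = b) *
      G (fun i => v (Sum.inl i))) = av (fun p : (ι → ZMod 2) × (τ → ZMod 2) =>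
        ind (p.2 = b) * G p.1) := h2
  rw [h3, av_prod]
  have h4 : ∀ x : ι → ZMod 2, av (fun y : τ → ZMod 2 => ind (y = b) * G x) =
      1 / 2 ^ Fintype.card τ * G x := fun x => by rw [av_mul', av_point]
  have h5 : av (fun x : ι → ZMod 2 => av fun y : τ → ZMod 2 =>
      ind ((x, y).2 = b) * G (x, y).1) = av fun x : ι → ZMod 2 => 1 / 2 ^ Fintype.card τ * G x :=
    av_congr h4
  rw [h5, av_mul, hG]
  congr 1
  rw [av_sub, av_const, EE_self D d F (notMem_erase j univ)]
  rfl

/-- **the random model for the class** -/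
theorem model_cl (h2t : ∀ u : W, u ≠ 0 → ∃ s, om u (D.t s) ≠ 0) {F : ℕ → ℝ} {c : ℝ}
    (h0 : ∀ r, 0 ≤ F r) (h1 : ∀ r, F r ≤ 1) (hc : Cvp (sp D % 2) F c) {ε : ℝ} (hε : 0 < ε) :
    ∃ K : ℕ, ∀ (ι : Type) [Fintype ι] (d : ι → ZMod 2) (lg : Finset ι), ∑ i, d i + D.N = 0 →
      (∃ j₁, d j₁ = 1) → 254 * (Fintype.card ι - lg.card) + K ≤ lg.card →
      ∃ l : List ι, l.Nodup ∧ l.length = lg.card ∧ (∀ j ∈ l, j ∈ lg) ∧
        ∀ a : Arr ι τ, |MM l (Ps D d F c) a| ≤ ε / 2 ^ Fintype.card τ := by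
  obtain ⟨K, hK⟩ := model (D := D) h2t h0 h1 hc hε
  refine ⟨K + 256, fun ι _ d lg hN hodd hlen => ?_⟩
  obtain ⟨j₁, hj₁⟩ := hodd
  have hlgle : lg.card ≤ Fintype.card ι := card_le_univ _
  have hE : lg.card - 1 ≤ (lg.erase j₁).card := pred_card_le_card_erase
  obtain ⟨j, l', hl'⟩ : ∃ j l', (lg.erase j₁).toList = j :: l' := by
    apply List.exists_cons_of_ne_nil
    intro h
    have h2 := length_toList (lg.erase j₁)
    rw [h, List.length_nil] at h2
    omega
  have hnd : (j :: l').Nodup := by rw [← hl']; exact nodup_toList _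
  have hmem : ∀ i ∈ j :: l', i ∈ lg ∧ i ≠ j₁ := by
    intro i hi
    rw [← hl', mem_toList, mem_erase] at hi
    exact ⟨hi.2, hi.1⟩
  have hlen' : (j :: l').length = (lg.erase j₁).card := by rw [← hl', length_toList]
  rw [List.length_cons] at hlen'
  have hjj : j₁ ≠ j := (hmem j (by simp)).2.symm
  have hnd' := (List.nodup_cons.1 hnd)
  have hbd : ∀ a : Arr ι τ, |MM (j :: l') (Ps D d F c) a| ≤ ε / 2 ^ Fintype.card τ := by
    intro a
    have h2 : MM (j :: l') (Ps D d F c) a =
        1 / 2 ^ Fintype.card τ * (MM l' (EE D d F (univ.erase j) 0) a - c) := by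
      show MM l' (Mop j (Ps D d F c)) a = _
      have h3 : Mop j (Ps D d F c) = fun a => 1 / 2 ^ Fintype.card τ *
          (EE D d F (univ.erase j) 0 a - (fun _ => c) a) := by
        funext b
        exact Mop_Ps hN F c j b
      rw [h3, MM_mul, MM_sub, MM_const]
    have h4 := hK ι d j₁ (univ.erase j) l' hj₁ (mem_erase.2 ⟨hjj, mem_univ _⟩)
      (fun h => (hmem j₁ (List.mem_cons_of_mem _ h)).2 rfl) hnd'.2 (fun i hi => mem_erase.2
      ⟨fun h => hnd'.1 (h ▸ hi), mem_univ _⟩) (by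
        rw [card_erase_of_mem (mem_univ _), card_univ]
        omega) a
    rw [h2, abs_mul, abs_of_nonneg (by positivity : (0 : ℝ) ≤ 1 / 2 ^ Fintype.card τ)]
    rw [div_mul_eq_mul_div, one_mul]
    exact div_le_div_of_nonneg_right h4 (by positivity)
  by_cases h1g : j₁ ∈ lg
  · refine ⟨(j :: l') ++ [j₁], ?_, ?_, ?_, fun a => ?_⟩
    · rw [List.nodup_append]
      refine ⟨hnd, List.nodup_singleton _, ?_⟩
      intro x hx y hy
      rw [List.mem_singleton] at hy
      rw [hy]
      exact (hmem x hx).2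
    · rw [List.length_append, List.length_cons, List.length_singleton, hlen', card_erase_of_mem h1g]
      have : 0 < lg.card := card_pos.2 ⟨_, h1g⟩
      omega
    · intro i hi
      rw [List.mem_append, List.mem_singleton] at hi
      rcases hi with hi | rfl
      · exact (hmem i hi).1
      · exact h1g
    · rw [MM_append]
      have h5 := MM_abs [j₁] (Φ := MM (j :: l') (Ps D d F c)) (Ψ := fun _ => 0)
        (Θ := fun _ => ε / 2 ^ Fintype.card τ) (fun b => by rw [sub_zero]; exact hbd b) a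
      rw [MM_const, MM_const, sub_zero] at h5
      exact h5
  · refine ⟨j :: l', hnd, ?_, fun i hi => (hmem i hi).1, hbd⟩
    rw [List.length_cons, hlen', erase_eq_of_notMem h1g]

end

end Pool.Agent.V8H26.YM
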