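import Pool.Agent.V8H26.YM.Cel
import Pool.Agent.V8H26.YL.Lvl

/-!
# Squarefree polynomials with a given number of prime factors, if the degree is even
-/

set_option autoImplicit false
set_option linter.all false

namespace Pool.Agent.V8H26.YM

open Finset Polynomial Pool.Agent.H341R2.Sharp
open Pool.Agent.V8H26.XL (Arr MM Fe Fe_nonneg Fe_le dm arr)
open Pool.Agent.V8H26.YL (dE gclE P1E P2E clE_iff clE YYE rk)
open Pool.Agent.Y164.PS
open scoped Classical

variable {k : Type} [Field k] [Fintype k] [DecidableEq k]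
variable {ι : Type} [Fintype ι]
variable {a b : k[X]} {N : ℕ} (H : Hyp a b N) {ep : Tau a b → ZMod 2}
  (hep : ∀ s, tv a b s = 0 → ep s = 1)

/-- some prime factor has odd degree -/
def OddP (D : k[X]) : Prop := ∃ P : k[X], P.Monic ∧ Irreducible P ∧ P ∣ D ∧ (P.natDegree : F2) = 1

/-- some member has odd degree -/
def oddT (T : ι → k[X]) : Prop := ∃ i, ((T i).natDegree : F2) = 1

theorem oddT_iff {n : ℕ} {T : ι → k[X]} (hT : T ∈ Tp k ι n) : oddT T ↔ OddP (∏ i, T i) := by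
  have h1 := (mem_Tp.1 hT).1
  constructor
  · rintro ⟨i, hi⟩
    exact ⟨T i, (h1 i).1, (h1 i).2, dvd_prod_of_mem _ (mem_univ i), hi⟩
  · rintro ⟨P, h2, h3, h4, h5⟩
    obtain ⟨i, -, hd⟩ := (h3.prime.dvd_finset_prod_iff _).1 h4
    have h6 : T i = P := (eq_of_monic_of_associated h2 (h1 i).1
      (h3.associated_of_dvd (h1 i).2 hd)).symm
    exact ⟨i, by rw [h6]; exact h5⟩

/-- the class, with a prime factor of odd degree -/
def P1O (a b : k[X]) (ep : Tau a b → ZMod 2) (D : k[X]) : Prop := P1E a b ep D ∧ OddP D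

/-- the property `G` in the class, with a prime factor of odd degree -/
def P2O (G : k[X] → Prop) (a b : k[X]) (ep : Tau a b → ZMod 2) (D : k[X]) : Prop :=
  P1O a b ep D ∧ G D

/-- prime to the bad primes, with a prime factor of odd degree -/
def nbO (a b : k[X]) (D : k[X]) : Prop := nb a b D ∧ OddP D

include H in
theorem tup_law (hq : 4 ≤ Fintype.card k) {F : ℕ → ℝ} {c : ℝ}
    (h0 : ∀ r, 0 ≤ F r) (h1 : ∀ r, F r ≤ 1) (hc0 : 0 ≤ c) (hc1 : c ≤ 1)
    {n z s : ℕ} (hn : (n : F2) + (N : F2) = 0) (hz : 2 ≤ z) {ε : ℝ} (hε : 0 < ε) (hε2 : ε ≤ 1 / 2)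
    {K : ℕ} (hK : ∀ (ι : Type) [Fintype ι] (d : ι → ZMod 2) (lg : Finset ι),
      ∑ i, d i + (datum H).N = 0 → (∃ j₁, d j₁ = 1) →
      254 * (Fintype.card ι - lg.card) + K ≤ lg.card →
      ∃ l : List ι, l.Nodup ∧ l.length = lg.card ∧ (∀ j ∈ l, j ∈ lg) ∧
        ∀ a' : Arr ι (Tau a b), |MM l (Ps (dE H hep) d F c) a'| ≤ ε / 2 ^ Fintype.card (Tau a b))
    (hm : 255 * s + K + 1 ≤ Fintype.card ι)
    (hB : et a b n z * (4 ^ Fintype.card ι * 4 ^ Fintype.card (Tau a b)) ≤ ε) :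
    ((c - 4 * ε) * ∑ T ∈ Xt k ι n z s,
        (if (ok (QQ a b) T ∧ clE (dE H hep) (QQ a b) T) ∧ oddT T then (1 : ℝ) else 0) ≤
      ∑ T ∈ Xt k ι n z s,
        (if (ok (QQ a b) T ∧ clE (dE H hep) (QQ a b) T) ∧ oddT T then F (rk H hep T - 2) else 0)) ∧
    (∑ T ∈ Xt k ι n z s,
        (if (ok (QQ a b) T ∧ clE (dE H hep) (QQ a b) T) ∧ oddT T then F (rk H hep T - 2) else 0) ≤
      (c + 4 * ε) * ∑ T ∈ Xt k ι n z s,
        (if (ok (QQ a b) T ∧ clE (dE H hep) (QQ a b) T) ∧ oddT T then (1 : ℝ) else 0)) ∧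
    (1 - ε) * ∑ T ∈ Xt k ι n z s, (if ok (QQ a b) T ∧ oddT T then (1 : ℝ) else 0) ≤
      2 ^ Fintype.card (Tau a b) * ∑ T ∈ Xt k ι n z s,
        (if (ok (QQ a b) T ∧ clE (dE H hep) (QQ a b) T) ∧ oddT T then (1 : ℝ) else 0) := by
  have key : ∀ T0 ∈ Xt k ι n z s, oddT T0 →
      |XF H.hm (dE H hep) (QQ a b) (dm T0) (cell z T0) F - c * YYE (dE H hep) (QQ a b) (cell z T0)| ≤
        4 * ε * YYE (dE H hep) (QQ a b) (cell z T0) ∧
      (1 - ε) * OK (QQ a b) (cell z T0) ≤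
        2 ^ Fintype.card (Tau a b) * YYE (dE H hep) (QQ a b) (cell z T0) := by
    intro T0 h0' hodd
    rw [Xt, mem_filter] at h0'
    have hlm : (lgs z T0).card ≤ Fintype.card ι := card_le_univ _
    have hne : (lgs z T0).Nonempty := by
      rw [← card_pos]
      omega
    have hc := cell_inst H hq hz h0'.1 hne
    have het := et_nonneg (a := a) (b := b) n z
    have hdN : ∑ i, dm T0 i + (datum H).N = 0 := by
      have h1 : ∑ i, ((T0 i).natDegree : F2) = (n : F2) := by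
        rw [← (mem_Tp.1 h0'.1).2]
        push_cast
        rfl
      show ∑ i, ((T0 i).natDegree : F2) + (N : F2) = 0
      rw [h1]
      exact hn
    have h3 : (Fintype.card ι : ℝ) + 1 ≤ 2 ^ Fintype.card ι := by
      have : Fintype.card ι + 1 ≤ 2 ^ Fintype.card ι := Nat.lt_pow_self (by norm_num)
      exact_mod_cast this
    have h2 : ((lgs z T0).card : ℝ) ≤ Fintype.card ι := by exact_mod_cast hlm
    have h5 : (2 : ℝ) ^ Fintype.card ι * 2 ^ Fintype.card ι = 4 ^ Fintype.card ι := by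
      rw [← mul_pow]; norm_num
    have h5' : (2 : ℝ) ^ Fintype.card (Tau a b) * 2 ^ Fintype.card (Tau a b) =
        4 ^ Fintype.card (Tau a b) := by
      rw [← mul_pow]; norm_num
    refine cell_law hc ?_ h0 h1 hc0 hc1 hε hε2 ?_ ?_ ?_
    · intro i hi
      rw [lgs, mem_filter] at hi
      push Not at hi
      exact ⟨T0 i, by rw [cell, if_pos (hi (mem_univ _))]⟩
    · exact hK ι (dm T0) (lgs z T0) hdN hodd (by omega)
    · refine le_trans ?_ hB
      rw [pow_add]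
      have h6 : ((lgs z T0).card : ℝ) ≤ 2 ^ Fintype.card ι := by linarith
      have h7 : (0 : ℝ) ≤ et a b n z * (2 ^ Fintype.card ι * 4 ^ Fintype.card (Tau a b)) :=
        mul_nonneg het (by positivity)
      have h8 := mul_le_mul_of_nonneg_right h6 h7
      calc ((lgs z T0).card : ℝ) * (2 ^ Fintype.card ι * 2 ^ Fintype.card (Tau a b) * et a b n z) *
            2 ^ Fintype.card (Tau a b) = (lgs z T0).card * (et a b n z * (2 ^ Fintype.card ι *
              (2 ^ Fintype.card (Tau a b) * 2 ^ Fintype.card (Tau a b)))) := by ring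
        _ = (lgs z T0).card * (et a b n z * (2 ^ Fintype.card ι *
              4 ^ Fintype.card (Tau a b))) := by rw [h5']
        _ ≤ 2 ^ Fintype.card ι * (et a b n z * (2 ^ Fintype.card ι *
              4 ^ Fintype.card (Tau a b))) := h8
        _ = et a b n z * ((2 ^ Fintype.card ι * 2 ^ Fintype.card ι) *
              4 ^ Fintype.card (Tau a b)) := by ring
        _ = _ := by rw [h5]
    · have h6 : ((lgs z T0).card : ℝ) + 2 ^ Fintype.card (Tau a b) ≤
          4 ^ Fintype.card ι * 4 ^ Fintype.card (Tau a b) := by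
        have h4 : (2 : ℝ) ^ Fintype.card (Tau a b) ≤ 4 ^ Fintype.card (Tau a b) :=
          pow_le_pow_left₀ (by norm_num) (by norm_num) _
        have h5 : (1 : ℝ) ≤ 4 ^ Fintype.card (Tau a b) := one_le_pow₀ (by norm_num)
        have h6 : (0 : ℝ) ≤ Fintype.card ι := Nat.cast_nonneg _
        have h7 : (2 : ℝ) ^ Fintype.card ι ≤ 4 ^ Fintype.card ι :=
          pow_le_pow_left₀ (by norm_num) (by norm_num) _
        nlinarith
      calc ((lgs z T0).card + 2 ^ Fintype.card (Tau a b)) * et a b n z ≤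
          (4 ^ Fintype.card ι * 4 ^ Fintype.card (Tau a b)) * et a b n z :=
            mul_le_mul_of_nonneg_right h6 het
        _ ≤ ε := by rw [mul_comm]; exact hB
  have hod : ∀ T0 ∈ Xt k ι n z s, ∀ T ∈ Fintype.piFinset (cell z T0), dm T = dm T0 := by
    intro T0 _ T hT
    funext i
    rw [dm, dm, cell_deg hT]
  have hod' : ∀ T0 ∈ Xt k ι n z s, ∀ T ∈ Fintype.piFinset (cell z T0), (oddT T ↔ oddT T0) := by
    intro T0 h0' T hT
    have h2 := hod T0 h0' T hT
    constructor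
    · rintro ⟨i, hi⟩
      exact ⟨i, by rw [← hi]; exact (congrFun h2 i).symm⟩
    · rintro ⟨i, hi⟩
      exact ⟨i, by rw [← hi]; exact congrFun h2 i⟩
  have hXF : ∀ T0 ∈ Xt k ι n z s, oddT T0 → ∑ T ∈ Fintype.piFinset (cell z T0),
      (if (ok (QQ a b) T ∧ clE (dE H hep) (QQ a b) T) ∧ oddT T then F (rk H hep T - 2) else 0) =
      XF H.hm (dE H hep) (QQ a b) (dm T0) (cell z T0) F := by
    intro T0 h0' ho
    rw [XF]
    refine sum_congr rfl fun T hT => ?_
    have h3 : oddT T := (hod' T0 h0' T hT).2 ho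
    simp only [h3, and_true]
    rw [rk, hod T0 h0' T hT]
  have hYY : ∀ T0 ∈ Xt k ι n z s, oddT T0 → ∑ T ∈ Fintype.piFinset (cell z T0),
      (if (ok (QQ a b) T ∧ clE (dE H hep) (QQ a b) T) ∧ oddT T then (1 : ℝ) else 0) =
      YYE (dE H hep) (QQ a b) (cell z T0) := by
    intro T0 h0' ho
    rw [YYE]
    refine sum_congr rfl fun T hT => ?_
    have h3 : oddT T := (hod' T0 h0' T hT).2 ho
    simp only [h3, and_true]
  have hOK : ∀ T0 ∈ Xt k ι n z s, oddT T0 → ∑ T ∈ Fintype.piFinset (cell z T0),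
      (if ok (QQ a b) T ∧ oddT T then (1 : ℝ) else 0) = OK (QQ a b) (cell z T0) := by
    intro T0 h0' ho
    rw [OK]
    refine sum_congr rfl fun T hT => ?_
    have h3 : oddT T := (hod' T0 h0' T hT).2 ho
    simp only [h3, and_true]
  have hz1 : ∀ T0 ∈ Xt k ι n z s, ¬ oddT T0 → ∑ T ∈ Fintype.piFinset (cell z T0),
      (if (ok (QQ a b) T ∧ clE (dE H hep) (QQ a b) T) ∧ oddT T then F (rk H hep T - 2) else 0) =
      0 := fun T0 h0' ho =>
    sum_eq_zero fun T hT => if_neg fun h => ho ((hod' T0 h0' T hT).1 h.2)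
  have hz2 : ∀ T0 ∈ Xt k ι n z s, ¬ oddT T0 → ∑ T ∈ Fintype.piFinset (cell z T0),
      (if (ok (QQ a b) T ∧ clE (dE H hep) (QQ a b) T) ∧ oddT T then (1 : ℝ) else 0) =
      0 := fun T0 h0' ho =>
    sum_eq_zero fun T hT => if_neg fun h => ho ((hod' T0 h0' T hT).1 h.2)
  have hz3 : ∀ T0 ∈ Xt k ι n z s, ¬ oddT T0 → ∑ T ∈ Fintype.piFinset (cell z T0),
      (if ok (QQ a b) T ∧ oddT T then (1 : ℝ) else 0) = 0 := fun T0 h0' ho =>
    sum_eq_zero fun T hT => if_neg fun h => ho ((hod' T0 h0' T hT).1 h.2)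
  refine ⟨?_, ?_, ?_⟩
  · have h2 := cells_nonneg (z := z) (X := Xt k ι n z s) Xt_closed Xt_self
      (fun T => (if (ok (QQ a b) T ∧ clE (dE H hep) (QQ a b) T) ∧ oddT T then F (rk H hep T - 2)
        else 0) - (c - 4 * ε) * (if (ok (QQ a b) T ∧ clE (dE H hep) (QQ a b) T) ∧ oddT T
        then (1 : ℝ) else 0)) (by
        intro T0 hT0
        rw [sum_sub_distrib, ← mul_sum]
        by_cases ho : oddT T0
        · have h2 := (key T0 hT0 ho).1
          rw [hXF T0 hT0 ho, hYY T0 hT0 ho]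
          rw [abs_le] at h2
          have h3 := h2.1
          have h4 : (c - 4 * ε) * YYE (dE H hep) (QQ a b) (cell z T0) ≤
            XF H.hm (dE H hep) (QQ a b) (dm T0) (cell z T0) F := by linarith
          exact sub_nonneg.2 h4
        · rw [hz1 T0 hT0 ho, hz2 T0 hT0 ho, mul_zero, sub_zero])
    rw [sum_sub_distrib, ← mul_sum] at h2
    exact sub_nonneg.1 h2
  · have h2 := cells_nonneg (z := z) (X := Xt k ι n z s) Xt_closed Xt_self
      (fun T => (c + 4 * ε) * (if (ok (QQ a b) T ∧ clE (dE H hep) (QQ a b) T) ∧ oddT T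
        then (1 : ℝ) else 0) -
        (if (ok (QQ a b) T ∧ clE (dE H hep) (QQ a b) T) ∧ oddT T then F (rk H hep T - 2)
        else 0)) (by
        intro T0 hT0
        rw [sum_sub_distrib, ← mul_sum]
        by_cases ho : oddT T0
        · have h2 := (key T0 hT0 ho).1
          rw [hXF T0 hT0 ho, hYY T0 hT0 ho]
          rw [abs_le] at h2
          have h3 := h2.2
          have h4 : XF H.hm (dE H hep) (QQ a b) (dm T0) (cell z T0) F ≤
            (c + 4 * ε) * YYE (dE H hep) (QQ a b) (cell z T0) := by linarith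
          exact sub_nonneg.2 h4
        · rw [hz1 T0 hT0 ho, hz2 T0 hT0 ho, mul_zero, sub_zero])
    rw [sum_sub_distrib, ← mul_sum] at h2
    exact sub_nonneg.1 h2
  · have h2 := cells_nonneg (z := z) (X := Xt k ι n z s) Xt_closed Xt_self
      (fun T => 2 ^ Fintype.card (Tau a b) *
        (if (ok (QQ a b) T ∧ clE (dE H hep) (QQ a b) T) ∧ oddT T then (1 : ℝ) else 0) -
        (1 - ε) * (if ok (QQ a b) T ∧ oddT T then (1 : ℝ) else 0)) (by
        intro T0 hT0
        rw [sum_sub_distrib, ← mul_sum, ← mul_sum]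
        by_cases ho : oddT T0
        · have h2 := (key T0 hT0 ho).2
          rw [hYY T0 hT0 ho, hOK T0 hT0 ho]
          exact sub_nonneg.2 h2
        · rw [hz2 T0 hT0 ho, hz3 T0 hT0 ho, mul_zero, mul_zero, sub_zero])
    rw [sum_sub_distrib, ← mul_sum, ← mul_sum] at h2
    exact sub_nonneg.1 h2

/-- `G` holds for the polynomials with dimension `r + 2` of the kernel -/
def Imp1 (H : Hyp a b N) (hep : ∀ s, tv a b s = 0 → ep s = 1) (r : ℕ) (G : k[X] → Prop) : Prop :=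
  ∀ (ι : Type) [Fintype ι] (T : ι → k[X]), Fam (Sum.elim T (QQ a b)) →
    clE (dE H hep) (QQ a b) T → ∑ i, ((T i).natDegree : F2) + (N : F2) = 0 → oddT T →
    rk H hep T - 2 = r → G (∏ i, T i)

/-- `G` holds only for the polynomials with dimension `r + 2` of the kernel -/
def Imp2 (H : Hyp a b N) (hep : ∀ s, tv a b s = 0 → ep s = 1) (r : ℕ) (G : k[X] → Prop) : Prop :=
  ∀ (ι : Type) [Fintype ι] (T : ι → k[X]), Fam (Sum.elim T (QQ a b)) →
    clE (dE H hep) (QQ a b) T → ∑ i, ((T i).natDegree : F2) + (N : F2) = 0 → oddT T →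
    G (∏ i, T i) → rk H hep T - 2 = r

include H in
theorem lvl_law' (ι : Type) [Fintype ι] {G : k[X] → Prop} (hq : 4 ≤ Fintype.card k) {r : ℕ} {c : ℝ}
    (hc0 : 0 ≤ c) (hc1 : c ≤ 1)
    {n m z s : ℕ} (hcm : Fintype.card ι = m) (hn : (n : F2) + (N : F2) = 0) (hz : 2 ≤ z) {ε : ℝ}
    (hε : 0 < ε) (hε2 : ε ≤ 1 / 2)
    {K : ℕ} (hK : ∀ (ι : Type) [Fintype ι] (d : ι → ZMod 2) (lg : Finset ι),
      ∑ i, d i + (datum H).N = 0 → (∃ j₁, d j₁ = 1) →
      254 * (Fintype.card ι - lg.card) + K ≤ lg.card →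
      ∃ l : List ι, l.Nodup ∧ l.length = lg.card ∧ (∀ j ∈ l, j ∈ lg) ∧
        ∀ a' : Arr ι (Tau a b), |MM l (Ps (dE H hep) d (Fe r) c) a'| ≤
          ε / 2 ^ Fintype.card (Tau a b))
    (hm : 255 * s + K + 1 ≤ m)
    (hB : et a b n z * (4 ^ m * 4 ^ Fintype.card (Tau a b)) ≤ ε) :
    (Imp1 H hep r G → (c - 4 * ε) * (((Sf k n).filter fun D => (pf D).card = m ∧ sm z D ≤ s ∧
        P1O a b ep D).card : ℝ) ≤ (((Sf k n).filter fun D => (pf D).card = m ∧ sm z D ≤ s ∧
        P2O G a b ep D).card : ℝ)) ∧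
    (Imp2 H hep r G → (((Sf k n).filter fun D => (pf D).card = m ∧ sm z D ≤ s ∧
        P2O G a b ep D).card : ℝ) ≤ (c + 4 * ε) * (((Sf k n).filter fun D => (pf D).card = m ∧
        sm z D ≤ s ∧ P1O a b ep D).card : ℝ)) ∧
    (1 - ε) * (((Sf k n).filter fun D => (pf D).card = m ∧ sm z D ≤ s ∧ nbO a b D).card : ℝ) ≤
      2 ^ Fintype.card (Tau a b) * (((Sf k n).filter fun D => (pf D).card = m ∧ sm z D ≤ s ∧
        P1O a b ep D).card : ℝ) := by
  have h0 := tup_law (ι := ι) H hep hq (Fe_nonneg r) (Fe_le r) hc0 hc1 hn hz hε hε2 hK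
    (by rw [hcm]; exact hm) (by rw [hcm]; exact hB)
  have hf : (0 : ℝ) < ((Fintype.card ι).factorial : ℝ) := by
    exact_mod_cast Nat.factorial_pos _
  have c1 := conv (k := k) (ι := ι) n z s (P1O a b ep)
  have c2 := conv (k := k) (ι := ι) n z s (nbO a b)
  have c3 := conv (k := k) (ι := ι) n z s (P2O G a b ep)
  rw [hcm] at c1 c2 c3
  rw [hcm] at hf
  have h1 : ∀ T ∈ Xt k ι n z s,
      (((ok (QQ a b) T ∧ clE (dE H hep) (QQ a b) T) ∧ oddT T) ↔
        (Function.Injective T ∧ P1O a b ep (∏ i, T i))) := by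
    intro T hT
    rw [Xt, mem_filter] at hT
    constructor
    · rintro ⟨⟨h2, h3⟩, h5⟩
      have h4 := (ok_iff H hT.1).1 h2
      exact ⟨h4.1, ⟨h4.2, (clE_iff H hep hT.1 h4.2).1 h3⟩, (oddT_iff hT.1).1 h5⟩
    · rintro ⟨h2, ⟨h3, h4⟩, h5⟩
      exact ⟨⟨(ok_iff H hT.1).2 ⟨h2, h3⟩, (clE_iff H hep hT.1 h3).2 h4⟩, (oddT_iff hT.1).2 h5⟩
  have e1 : ∑ T ∈ Xt k ι n z s, (if (ok (QQ a b) T ∧ clE (dE H hep) (QQ a b) T) ∧ oddT T
        then (1 : ℝ) else 0)
      = ∑ T ∈ Xt k ι n z s, (if Function.Injective T ∧ P1O a b ep (∏ i, T i) then (1 : ℝ) else 0) := by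
    refine sum_congr rfl fun T hT => ?_
    simp only [h1 T hT]
  have e2 : ∑ T ∈ Xt k ι n z s, (if ok (QQ a b) T ∧ oddT T then (1 : ℝ) else 0)
      = ∑ T ∈ Xt k ι n z s, (if Function.Injective T ∧ nbO a b (∏ i, T i)
        then (1 : ℝ) else 0) := by
    refine sum_congr rfl fun T hT => ?_
    rw [Xt, mem_filter] at hT
    have h3 : (ok (QQ a b) T ∧ oddT T) ↔ (Function.Injective T ∧ nbO a b (∏ i, T i)) := by
      rw [ok_iff H hT.1, oddT_iff hT.1, nbO, and_assoc]
    simp only [h3]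
  have hfam : ∀ T ∈ Xt k ι n z s, ok (QQ a b) T → Fam (Sum.elim T (QQ a b)) ∧
      ∑ i, ((T i).natDegree : F2) + (N : F2) = 0 := by
    intro T hT h2
    rw [Xt, mem_filter] at hT
    have h7 := (mem_Tp.1 hT.1)
    refine ⟨⟨?_, ?_, h2⟩, ?_⟩
    · rintro (i | s)
      · exact (h7.1 i).1
      · exact H.fam.mon s
    · rintro (i | s)
      · exact (h7.1 i).2
      · exact H.fam.irr s
    · have h9 : ∑ i, ((T i).natDegree : F2) = (n : F2) := by
        rw [← h7.2]
        push_cast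
        rfl
      rw [h9]
      exact hn
  have e3 : Imp1 H hep r G → ∑ T ∈ Xt k ι n z s,
      (if (ok (QQ a b) T ∧ clE (dE H hep) (QQ a b) T) ∧ oddT T then Fe r (rk H hep T - 2) else 0)
      ≤ ∑ T ∈ Xt k ι n z s, (if Function.Injective T ∧ P2O G a b ep (∏ i, T i) then (1 : ℝ) else 0) := by
    intro hG
    apply sum_le_sum
    intro T hT
    by_cases h2 : (ok (QQ a b) T ∧ clE (dE H hep) (QQ a b) T) ∧ oddT T
    · rw [if_pos h2]
      by_cases h3 : rk H hep T - 2 = r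
      · have h4 := (h1 T hT).1 h2
        have h5 := hfam T hT h2.1.1
        have h6 := hG ι T h5.1 h2.1.2 h5.2 h2.2 h3
        rw [if_pos ⟨h4.1, h4.2, h6⟩]
        exact Fe_le _ _
      · rw [Fe, if_neg h3]
        split_ifs <;> norm_num
    · rw [if_neg h2]
      split_ifs <;> norm_num
  have e4 : Imp2 H hep r G → ∑ T ∈ Xt k ι n z s,
      (if Function.Injective T ∧ P2O G a b ep (∏ i, T i) then (1 : ℝ) else 0) ≤
      ∑ T ∈ Xt k ι n z s,
      (if (ok (QQ a b) T ∧ clE (dE H hep) (QQ a b) T) ∧ oddT T then Fe r (rk H hep T - 2)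
        else 0) := by
    intro hG
    apply sum_le_sum
    intro T hT
    by_cases h2 : Function.Injective T ∧ P2O G a b ep (∏ i, T i)
    · rw [if_pos h2]
      have h3 := (h1 T hT).2 ⟨h2.1, h2.2.1⟩
      have h5 := hfam T hT h3.1.1
      have h6 := hG ι T h5.1 h3.1.2 h5.2 h3.2 h2.2.2
      rw [if_pos h3, Fe, if_pos h6]
    · rw [if_neg h2]
      split_ifs
      · exact Fe_nonneg _ _
      · exact le_rfl
  rw [e1, e2, c1, c2] at h0
  rw [c3] at e3 e4
  refine ⟨fun hG => ?_, fun hG => ?_, ?_⟩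
  · have h2 := h0.1.trans (e3 hG)
    have h1 : (m.factorial : ℝ) * ((c - 4 * ε) * (((Sf k n).filter fun D => (pf D).card = m ∧
        sm z D ≤ s ∧ P1O a b ep D).card : ℝ)) ≤ (m.factorial : ℝ) *
        (((Sf k n).filter fun D => (pf D).card = m ∧ sm z D ≤ s ∧
        P2O G a b ep D).card : ℝ) := by
      linarith
    exact le_of_mul_le_mul_left h1 hf
  · have h2 := (e4 hG).trans h0.2.1
    have h1 : (m.factorial : ℝ) *
        (((Sf k n).filter fun D => (pf D).card = m ∧ sm z D ≤ s ∧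
        P2O G a b ep D).card : ℝ) ≤ (m.factorial : ℝ) * ((c + 4 * ε) *
        (((Sf k n).filter fun D => (pf D).card = m ∧ sm z D ≤ s ∧ P1O a b ep D).card : ℝ)) := by
      linarith
    exact le_of_mul_le_mul_left h1 hf
  · have h1 : (m.factorial : ℝ) * ((1 - ε) * (((Sf k n).filter fun D => (pf D).card = m ∧
        sm z D ≤ s ∧ nbO a b D).card : ℝ)) ≤ (m.factorial : ℝ) *
        (2 ^ Fintype.card (Tau a b) * (((Sf k n).filter fun D => (pf D).card = m ∧ sm z D ≤ s ∧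
        P1O a b ep D).card : ℝ)) := by
      have h2 := h0.2.2
      linarith
    exact le_of_mul_le_mul_left h1 hf

end Pool.Agent.V8H26.YM
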