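import Pool.Agent.V8H26.YM.Ngb

/-!
# The random model (vectors of degree zero)
-/

set_option autoImplicit false
set_option linter.all false

namespace Pool.Agent.V8H26.YM

open Module Finset Filter Topology
open Pool.Agent.V8H26.XL hiding fm fm_symm fm_rep fm_x fm_xj fm_rest fm_new fm_diag fm_va fm_self
  Ph MM_Ph_le Lf kr_zero fm_ws
open Pool.Agent.V8H26.YL (DE dt dt_apply fm fm_eq fm_symm fm_rep fm_x fm_xj fm_rest fm_new fm_diag fm_va
  fm_self Ph MM_Ph_le Lf sp sum_ep fm_ws Cvp)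
open Pool.Agent.Y164.PS (W om om_add_left om_add_right om_comm om_self om_zero_left om_zero_right Oq ee
  om_smul_left om_smul_right eq_zero_of_om W_add_self Dat V ks dg ws dg_ws lab ks_add dg_add sg sg_add
  sg_zero sg_one abs_sg FF_split)
open Pool.Agent.V8H64.FF (Phi phi_comm phi_add_left phi_smul_left)
open scoped Classical

section
variable {ι τ : Type} [Fintype ι] [Fintype τ] {D : DE τ} {d : ι → ZMod 2}

theorem NG_rep {S : Finset ι} {j : ι} (hj : j ∉ S) (a : Arr ι τ) :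
    av (fun x : ι → ZMod 2 => ind (NG D d S (rep j 0 a) x)) =
      av (fun x : ι → ZMod 2 => ind (NG D d S a x)) := by
  rw [← av_shift (vh j (va j a)) fun x : ι → ZMod 2 => ind (NG D d S a x)]
  refine av_congr fun x => ind_congr ?_
  apply NG_congr
  intro u hu w hw
  rw [fm_va D d j a, fm_rest D d j _ a x u w (hu.2 j hj) (hw.2 j hj)]

/-- **the chain** -/
theorem chain (h2t : ∀ u : W, u ≠ 0 → ∃ s, om u (D.t s) ≠ 0) {F : ℕ → ℝ} (h0 : ∀ r, 0 ≤ F r)
    (h1 : ∀ r, F r ≤ 1) {j₁ : ι} (hd : d j₁ = 1) (l₂ : List ι) (a : Arr ι τ) :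
    ∀ (l₁ : List ι) (S : Finset ι) (n : ℕ), j₁ ∈ S → j₁ ∉ l₁ ++ l₂ →
    (l₁ ++ l₂).Nodup → (∀ j ∈ l₁ ++ l₂, j ∈ S) →
    |MM (l₁ ++ l₂) (EE D d F S n) a - MM l₂ (EE D d F (S \ l₁.toFinset) (n + 2 * l₁.length)) a| ≤
      16 * (CX * 4 ^ Fintype.card τ * 16 ^ (S.card - (l₁ ++ l₂).length) *
        ∑ u ∈ Ico l₂.length (l₁ ++ l₂).length, (15 / 16 : ℝ) ^ u) := by
  intro l₁
  induction l₁ with
  | nil =>
    intro S n _ _ _ _
    simp
  | cons j l₁ ih =>
    intro S n hj1 hj1' hnd hS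
    have hnd' : (l₁ ++ l₂).Nodup := (List.nodup_cons.1 hnd).2
    have hj : j ∉ l₁ ++ l₂ := (List.nodup_cons.1 hnd).1
    have hjj : j₁ ≠ j := fun h => hj1' (by rw [h]; simp)
    have hjl : j₁ ∉ l₁ ++ l₂ := fun h => hj1' (List.mem_cons_of_mem _ h)
    have hjS : j ∈ S := hS j (by simp)
    have hj1S : j₁ ∈ S.erase j := mem_erase.2 ⟨hjj, hj1⟩
    have hS' : ∀ i ∈ l₁ ++ l₂, i ∈ S.erase j := fun i hi =>
      mem_erase.2 ⟨fun h => hj (h ▸ hi), hS i (List.mem_cons_of_mem _ hi)⟩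
    have hcard : (S.erase j).card = S.card - 1 := card_erase_of_mem hjS
    have hlen : (l₁ ++ l₂).length ≤ (S.erase j).card := by
      rw [← List.toFinset_card_of_nodup hnd']
      exact card_le_card fun i hi => hS' i (List.mem_toFinset.1 hi)
    have e1 := ih (S.erase j) (n + 2) hj1S hjl hnd' hS'
    have e2 : |MM (l₁ ++ l₂) (Mop j (EE D d F S n)) a -
        MM (l₁ ++ l₂) (EE D d F (S.erase j) (n + 2)) a| ≤
        16 * (CX * 4 ^ Fintype.card τ * ((15 / 16) ^ (l₁ ++ l₂).length *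
          16 ^ ((S.erase j).card - (l₁ ++ l₂).length))) := by
      refine (MM_abs _ (Θ := fun a => av fun x : ι → ZMod 2 => ind (NG D d (S.erase j) a x)) ?_ a).trans
        (ng_bound h2t hd hj1S hnd' hS' a)
      intro b
      have h2 := step (D := D) (d := d) h0 h1 hd hj1S (notMem_erase j S) n b
      rw [insert_erase hjS, NG_rep (notMem_erase j S)] at h2
      exact h2
    have e3 : (S.erase j) \ l₁.toFinset = S \ (j :: l₁).toFinset := by
      ext i
      simp only [Finset.mem_sdiff, mem_erase, List.mem_toFinset, List.mem_cons]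
      tauto
    have e4 : n + 2 + 2 * l₁.length = n + 2 * (j :: l₁).length := by
      rw [List.length_cons]; ring
    have e5 : (j :: l₁ ++ l₂).length = (l₁ ++ l₂).length + 1 := by simp
    have e6 : S.card - (j :: l₁ ++ l₂).length = (S.erase j).card - (l₁ ++ l₂).length := by
      rw [e5, hcard]; omega
    rw [e3, e4] at e1
    rw [e6, e5, sum_Ico_succ_top (by simp)]
    have e7 : MM (j :: l₁ ++ l₂) (EE D d F S n) a = MM (l₁ ++ l₂) (Mop j (EE D d F S n)) a := rfl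
    rw [e7]
    have e8 : MM (l₁ ++ l₂) (Mop j (EE D d F S n)) a -
        MM l₂ (EE D d F (S \ (j :: l₁).toFinset) (n + 2 * (j :: l₁).length)) a =
        (MM (l₁ ++ l₂) (Mop j (EE D d F S n)) a -
          MM (l₁ ++ l₂) (EE D d F (S.erase j) (n + 2)) a) +
        (MM (l₁ ++ l₂) (EE D d F (S.erase j) (n + 2)) a -
          MM l₂ (EE D d F (S \ (j :: l₁).toFinset) (n + 2 * (j :: l₁).length)) a) := by ring
    rw [e8]
    refine (abs_add_le _ _).trans ?_
    rw [mul_add, mul_add]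
    have e9 : 16 * ((CX : ℝ) * 4 ^ Fintype.card τ * ((15 / 16) ^ (l₁ ++ l₂).length *
        16 ^ ((S.erase j).card - (l₁ ++ l₂).length))) =
        16 * (CX * 4 ^ Fintype.card τ * 16 ^ ((S.erase j).card - (l₁ ++ l₂).length) *
          (15 / 16) ^ (l₁ ++ l₂).length) := by ring
    rw [e9] at e2
    linarith

theorem rho_mod (hτ : Nonempty τ) {S : Finset ι} {j₁ : ι} (hd : d j₁ = 1) (h1 : j₁ ∈ S)
    (a : Arr ι τ) (x : ι → ZMod 2) :
    rho (fm D d a x) (US D d S) % 2 = sp D % 2 := by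
  have h2 := parity (fm_symm D d a x) (fm_diag D d a x) (ws_ne hτ) (US D d S) (ws_US S)
  have h3 := finrank_US (D := D) hd h1
  rw [fm_ws, ← Nat.cast_add, ZMod.natCast_eq_zero_iff_even] at h2
  rw [Nat.even_iff, Nat.even_iff] at h2
  omega

theorem rho_le {S : Finset ι} {j₁ : ι} (hd : d j₁ = 1) (h1 : j₁ ∈ S) (a : Arr ι τ)
    (x : ι → ZMod 2) : rho (fm D d a x) (US D d S) ≤ 2 * S.card + Fintype.card τ := by
  have h2 : rho (fm D d a x) (US D d S) ≤ finrank (ZMod 2) (US D d S) :=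
    Submodule.finrank_mono fun u hu => hu.1
  have h3 := finrank_US (D := D) hd h1
  omega

theorem EE_lim (hτ : Nonempty τ) {F : ℕ → ℝ} {c ε : ℝ} {k₀ : ℕ}
    (hk : ∀ t s : ℕ, 4 * s + k₀ ≤ t → |gg F (2 * t) (2 * s + sp D % 2) - c| ≤ ε) {S : Finset ι}
    {j₁ : ι} (hd : d j₁ = 1) (hj : j₁ ∈ S) {t : ℕ}
    (ht : 4 * (S.card + Fintype.card τ) + k₀ ≤ t) (a : Arr ι τ) : |EE D d F S (2 * t) a - c| ≤ ε := by
  have h1 : EE D d F S (2 * t) a - c =
      av fun x : ι → ZMod 2 => gg F (2 * t) (rho (fm D d a x) (US D d S)) - c := by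
    rw [av_sub, av_const]
    rfl
  rw [h1]
  refine (abs_av_le (g := fun _ => ε) fun x => ?_).trans (le_of_eq (av_const ε))
  have hs := rho_mod (D := D) hτ hd hj a x
  have h2 := rho_le (D := D) hd hj a x
  have h3 : rho (fm D d a x) (US D d S) = 2 * (rho (fm D d a x) (US D d S) / 2) + sp D % 2 := by
    omega
  rw [h3]
  exact hk t _ (by omega)

/-- **the random model** -/
theorem model (h2t : ∀ u : W, u ≠ 0 → ∃ s, om u (D.t s) ≠ 0) {F : ℕ → ℝ} {c : ℝ}
    (h0 : ∀ r, 0 ≤ F r) (h1 : ∀ r, F r ≤ 1) (hc : Cvp (sp D % 2) F c) {ε : ℝ} (hε : 0 < ε) :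
    ∃ K : ℕ, ∀ (ι : Type) [Fintype ι] (d : ι → ZMod 2) (j₁ : ι) (S : Finset ι) (l : List ι),
      d j₁ = 1 → j₁ ∈ S → j₁ ∉ l → l.Nodup →
      (∀ j ∈ l, j ∈ S) → 254 * (S.card - l.length) + K ≤ l.length →
      ∀ a : Arr ι τ, |MM l (EE D d F S 0) a - c| ≤ ε := by
  have hτ : Nonempty τ := by
    obtain ⟨s, -⟩ := h2t (1, 0) (by decide)
    exact ⟨s⟩
  obtain ⟨k₀, hk⟩ := hc (ε / 2) (by positivity)
  have h3 : Tendsto (fun K : ℕ => 16 * ((CX : ℝ) * 4 ^ Fintype.card τ * 16) * (15 / 16) ^ K)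
      atTop (𝓝 0) := by
    have := (tendsto_pow_atTop_nhds_zero_of_lt_one (r := (15 / 16 : ℝ)) (by norm_num)
      (by norm_num)).const_mul (16 * ((CX : ℝ) * 4 ^ Fintype.card τ * 16))
    rw [mul_zero] at this
    exact this
  obtain ⟨K₁, hK₁⟩ := (h3.eventually_le_const (show (0 : ℝ) < ε / 2 by positivity)).exists
  refine ⟨5 * K₁ + 4 * Fintype.card τ + k₀, fun ι _ d j₁ S l hd hj1 hj1l hnd hS hlen a => ?_⟩
  set s := S.card - l.length with hs
  have hle : l.length ≤ S.card := by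
    rw [← List.toFinset_card_of_nodup hnd]
    exact card_le_card fun i hi => hS i (List.mem_toFinset.1 hi)
  set r₀ := 50 * s + K₁ with hr₀
  set t := l.length - r₀ with ht
  set l₁ := l.take t with hl₁
  set l₂ := l.drop t with hl₂
  have hl : l₁ ++ l₂ = l := List.take_append_drop t l
  have hlen₁ : l₁.length = t := by rw [hl₁, List.length_take]; omega
  have hlen₂ : l₂.length = r₀ := by rw [hl₂, List.length_drop]; omega
  have e1 := chain (D := D) h2t h0 h1 hd l₂ a l₁ S 0 hj1 (by rw [hl]; exact hj1l)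
    (by rw [hl]; exact hnd) (by rw [hl]; exact hS)
  rw [hl, zero_add, hlen₁, hlen₂] at e1
  have hj2 : j₁ ∈ S \ l₁.toFinset := by
    rw [Finset.mem_sdiff]
    refine ⟨hj1, fun h => hj1l ?_⟩
    rw [← hl]
    exact List.mem_append_left _ (List.mem_toFinset.1 h)
  have hcard : (S \ l₁.toFinset).card = s + r₀ := by
    have h4 : l₁.toFinset ⊆ S := fun i hi => hS i (by
      rw [← hl]
      exact List.mem_append_left _ (List.mem_toFinset.1 hi))
    have h5 : l₁.Nodup := by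
      rw [← hl] at hnd
      exact hnd.of_append_left
    rw [card_sdiff_of_subset h4, List.toFinset_card_of_nodup h5, hlen₁]
    omega
  have e2 : |MM l₂ (EE D d F (S \ l₁.toFinset) (2 * t)) a - c| ≤ ε / 2 := by
    have h6 := MM_abs l₂ (Φ := EE D d F (S \ l₁.toFinset) (2 * t)) (Ψ := fun _ => c)
      (Θ := fun _ => ε / 2) (fun b => EE_lim hτ hk hd hj2 (by rw [hcard]; omega) b) a
    rw [MM_const, MM_const] at h6
    exact h6
  have e3 : 16 * ((CX : ℝ) * 4 ^ Fintype.card τ * 16 ^ s *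
      ∑ u ∈ Ico r₀ l.length, (15 / 16 : ℝ) ^ u) ≤ ε / 2 := by
    refine le_trans ?_ hK₁
    have h6 := geo_le r₀ l.length
    have h7 : (16 : ℝ) ^ s * (15 / 16) ^ (50 * s) ≤ 1 := by
      rw [pow_mul, ← mul_pow]
      exact pow_le_one₀ (by norm_num) pow50
    have h8 : (0 : ℝ) ≤ CX * 4 ^ Fintype.card τ := by positivity
    calc 16 * ((CX : ℝ) * 4 ^ Fintype.card τ * 16 ^ s * ∑ u ∈ Ico r₀ l.length, (15 / 16 : ℝ) ^ u) ≤
        16 * (CX * 4 ^ Fintype.card τ * 16 ^ s * (16 * (15 / 16) ^ r₀)) :=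
          mul_le_mul_of_nonneg_left (mul_le_mul_of_nonneg_left h6 (by positivity)) (by norm_num)
      _ = 16 * (CX * 4 ^ Fintype.card τ * 16) * (15 / 16) ^ K₁ *
          (16 ^ s * (15 / 16) ^ (50 * s)) := by
          rw [hr₀, pow_add]; ring
      _ ≤ 16 * (CX * 4 ^ Fintype.card τ * 16) * (15 / 16) ^ K₁ * 1 :=
          mul_le_mul_of_nonneg_left h7 (by positivity)
      _ = _ := mul_one _
  have e4 : MM l (EE D d F S 0) a - c =
      (MM l (EE D d F S 0) a - MM l₂ (EE D d F (S \ l₁.toFinset) (2 * t)) a) +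
      (MM l₂ (EE D d F (S \ l₁.toFinset) (2 * t)) a - c) := by ring
  rw [e4]
  refine (abs_add_le _ _).trans ?_
  have e5 := e1.trans e3
  linarith

end

end Pool.Agent.V8H26.YM
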