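import Pool.Agent.V8H26.YL.Chn
import Pool.Agent.V8H26.YL.Trv

/-!
# The forms on the vectors of degree zero
-/

set_option autoImplicit false
set_option linter.all false

namespace Pool.Agent.V8H26.YM

open Module Finset
open Pool.Agent.V8H26.XL hiding fm fm_symm fm_rep fm_x fm_xj fm_rest fm_new fm_diag fm_va fm_self
open Pool.Agent.Y164.PS (W om om_add_left om_add_right om_comm om_self om_zero_left om_zero_right Oq ee
  om_smul_left om_smul_right eq_zero_of_om W_add_self Dat V ks dg ws dg_ws lab ks_add dg_add sg sg_add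
  sg_zero sg_one abs_sg FF_split)
open Pool.Agent.V8H64.FF (Phi phi_comm phi_add_left phi_smul_left)
open Pool.Agent.V8H26.YL (DE dt dt_apply fm fm_eq fm_symm fm_rep fm_x fm_xj fm_rest fm_new fm_diag fm_va
  fm_self)
open scoped Classical

section
variable {ι τ : Type} [Fintype ι] [Fintype τ] (D : DE τ) (d : ι → ZMod 2)

/-- the vectors of degree zero supported in `S` -/
def US (S : Finset ι) : Submodule (ZMod 2) (V ι τ) := V0 D.toDat d ⊓ VS S

variable {D d}

theorem mem_US {S : Finset ι} {w : V ι τ} :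
    w ∈ US D d S ↔ dg D.toDat d w = 0 ∧ ∀ i, i ∉ S → w.1 i = 0 := by
  rw [US, Submodule.mem_inf, mem_V0, mem_VS]

theorem US_VS {S : Finset ι} {w : V ι τ} (h : w ∈ US D d S) : w ∈ VS S := h.2

theorem ws_US (S : Finset ι) : (ws : V ι τ) ∈ US D d S := mem_US.2 ⟨dg_ws _ _, fun i _ => rfl⟩

theorem dg_vj (j : ι) (y : W) : dg D.toDat d (vj j y) = d j • y := by
  unfold dg
  have : ∑ s, (D.e s * (vj (ι := ι) j y).2 s) • D.t s = 0 :=
    sum_eq_zero fun s _ => by rw [vj_snd, mul_zero, zero_smul]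
  rw [this, add_zero, sum_eq_single j]
  · rw [vj_fst, if_pos rfl]
  · intro i _ hi
    rw [vj_fst, if_neg hi, smul_zero]
  · intro h
    exact absurd (mem_univ _) h

theorem vj_add (j : ι) (y y' : W) : vj (τ := τ) j (y + y') = vj j y + vj j y' := by
  refine Prod.ext ?_ ?_
  · exact Pi.single_add (f := fun _ : ι => W) j y y'
  · exact (add_zero (0 : τ → ZMod 2)).symm

variable (d) in
/-- the new vector, corrected at `j₁` -/
noncomputable def nu (j₁ j : ι) (y : W) : V ι τ := vj j y + d j • vj j₁ y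

theorem nu_j {j₁ j : ι} (hj : j ≠ j₁) (y : W) : (nu (τ := τ) d j₁ j y).1 j = y := by
  show (vj (τ := τ) j y).1 j + d j • (vj (τ := τ) j₁ y).1 j = y
  rw [vj_fst, if_pos rfl, vj_fst, if_neg hj, smul_zero, add_zero]

theorem nu_add (j₁ j : ι) (y y' : W) : nu (τ := τ) d j₁ j (y + y') = nu d j₁ j y + nu d j₁ j y' := by
  rw [nu, nu, nu, vj_add, vj_add, smul_add]
  abel

theorem nu_US {S : Finset ι} {j₁ j : ι} (hd : d j₁ = 1) (h1 : j₁ ∈ S) (y : W) :
    nu d j₁ j y ∈ US D d (insert j S) := by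
  rw [mem_US]
  constructor
  · have h2 : dg D.toDat d (nu d j₁ j y) = dg D.toDat d (vj j y) + d j • dg D.toDat d (vj j₁ y) := by
      have h3 := (dL D.toDat d).map_add (vj j y) (d j • vj j₁ y)
      rw [map_smul] at h3
      exact h3
    rw [h2, dg_vj, dg_vj, hd, one_smul, W_add_self]
  · intro i hi
    rw [mem_insert, not_or] at hi
    show (vj (τ := τ) j y).1 i + d j • (vj (τ := τ) j₁ y).1 i = 0
    rw [vj_fst, if_neg hi.1, vj_fst, if_neg (by rintro rfl; exact hi.2 h1), smul_zero, add_zero]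

theorem US_mono {S : Finset ι} {j : ι} {w : V ι τ} (h : w ∈ US D d S) : w ∈ US D d (insert j S) := by
  rw [mem_US] at h ⊢
  exact ⟨h.1, fun i hi => h.2 i fun h' => hi (mem_insert_of_mem h')⟩

theorem US_insert {S : Finset ι} {j₁ j : ι} (hd : d j₁ = 1) (h1 : j₁ ∈ S) (hj : j ∉ S) :
    US D d (insert j S) = ex (ex (US D d S) (nu d j₁ j (1, 0))) (nu d j₁ j (0, 1)) := by
  have hne : j ≠ j₁ := fun h => hj (h ▸ h1)
  have hvj : ∀ (y : W) (w : V ι τ), w ∈ US D d (insert j S) → w.1 j = y →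
      w + nu d j₁ j y ∈ US D d S := by
    intro y w hw hy
    have h2 := (US D d (insert j S)).add_mem hw (nu_US hd h1 y)
    rw [mem_US] at h2 ⊢
    refine ⟨h2.1, fun i hi => ?_⟩
    by_cases hij : i = j
    · show w.1 i + (nu (τ := τ) d j₁ j y).1 i = 0
      rw [hij, nu_j hne, hy, W_add_self]
    · exact h2.2 i (by rw [mem_insert]; tauto)
  ext w
  rw [mem_ex, mem_ex, mem_ex]
  constructor
  · intro hw
    rcases Wc (w.1 j) with h | h | h | h
    · left; left
      rw [mem_US] at hw ⊢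
      refine ⟨hw.1, fun i hi => ?_⟩
      by_cases hij : i = j
      · rw [hij, h]
      · exact hw.2 i (by rw [mem_insert]; tauto)
    · left; right
      exact hvj _ w hw h
    · right; left
      exact hvj _ w hw h
    · right; right
      have := hvj _ w hw h
      rw [nu_add, add_comm (nu d j₁ j (1, 0)), ← add_assoc] at this
      exact this
  · have back : ∀ (y : W), w + nu d j₁ j y ∈ US D d S → w ∈ US D d (insert j S) := by
      intro y h
      have := (US D d (insert j S)).add_mem (US_mono h) (nu_US hd h1 y)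
      rw [add_assoc, X_self, add_zero] at this
      exact this
    rintro ((h | h) | (h | h))
    · exact US_mono h
    · exact back _ h
    · exact back _ h
    · rw [add_assoc, ← nu_add] at h
      exact back _ h

theorem finrank_US {S : Finset ι} {j₁ : ι} (hd : d j₁ = 1) (h1 : j₁ ∈ S) :
    finrank (ZMod 2) (US D d S) + 2 = 2 * S.card + Fintype.card τ := by
  have h2 := LinearMap.finrank_range_add_finrank_ker ((dL D.toDat d).domRestrict (VS (τ := τ) S))
  have h3 : finrank (ZMod 2) (LinearMap.range ((dL D.toDat d).domRestrict (VS (τ := τ) S))) = 2 := by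
    have : LinearMap.range ((dL D.toDat d).domRestrict (VS (τ := τ) S)) = ⊤ := by
      rw [LinearMap.range_eq_top]
      intro y
      refine ⟨⟨vj j₁ y, fun i hi => ?_⟩, ?_⟩
      · rw [vj_fst, if_neg (by rintro rfl; exact hi h1)]
      · show dg D.toDat d (vj j₁ y) = y
        rw [dg_vj, hd, one_smul]
    rw [this, finrank_top]
    show finrank (ZMod 2) (ZMod 2 × ZMod 2) = 2
    rw [finrank_prod, finrank_self]
  have h4 : finrank (ZMod 2) (LinearMap.ker ((dL D.toDat d).domRestrict (VS (τ := τ) S))) =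
      finrank (ZMod 2) (US D d S) := by
    refine LinearEquiv.finrank_eq (LinearEquiv.ofBijective
      (LinearMap.codRestrict (US D d S) ((VS (τ := τ) S).subtype.comp
        (LinearMap.ker ((dL D.toDat d).domRestrict (VS (τ := τ) S))).subtype) ?_) ?_)
    · rintro ⟨⟨x, hx⟩, hxk⟩
      exact ⟨hxk, hx⟩
    · constructor
      · rintro ⟨⟨x, hx⟩, hxk⟩ ⟨⟨y, hy⟩, hyk⟩ h
        have h' : x = y := congrArg Subtype.val h
        subst h'
        rfl
      · rintro ⟨x, hx⟩
        exact ⟨⟨⟨x, hx.2⟩, hx.1⟩, rfl⟩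
  rw [h3, h4, finrank_VS] at h2
  omega

/-- the value at a new vector -/
theorem fm_nu {j₁ j : ι} (hne : j ≠ j₁) (v : ι ⊕ τ → ZMod 2) (a : Arr ι τ) (x : ι → ZMod 2)
    (w : V ι τ) (y : W) (h : w.1 j = 0) :
    fm D d (rep j v a) (x + vh j v) w (nu d j₁ j y) =
      ∑ z, co D j w (vj j y) z * v z + (d j * om (ks D.l (dg D d w)) y +
        d j * fm D d (rep j 0 a) x w (vj j₁ y)) := by
  have h2 : (vj (τ := τ) j₁ y).1 j = 0 := by rw [vj_fst, if_neg hne]
  rw [nu, map_add, map_smul, fm_new D d j v a _ _ _ h, fm_rest D d j v a x w _ h h2, smul_eq_mul]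
  ring

variable (D d)

/-- the expected value -/
noncomputable def EE (F : ℕ → ℝ) (S : Finset ι) (n : ℕ) (a : Arr ι τ) : ℝ :=
  av fun x : ι → ZMod 2 => gg F n (rho (fm D d a x) (US D d S))

theorem EE_rep (F : ℕ → ℝ) {S : Finset ι} {j : ι} (hj : j ∉ S) (n : ℕ) (v : ι ⊕ τ → ZMod 2)
    (a : Arr ι τ) : EE D d F S n (rep j v a) = EE D d F S n (rep j 0 a) := by
  rw [EE, EE, ← av_shift (vh j v)]
  refine av_congr fun x => ?_
  congr 1
  apply rho_congr
  intro u hu w hw
  exact fm_rest D d j v a x u w (hu.2 j hj) (hw.2 j hj)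

theorem EE_self (F : ℕ → ℝ) {S : Finset ι} {j : ι} (hj : j ∉ S) (n : ℕ) (a : Arr ι τ) :
    EE D d F S n a = EE D d F S n (rep j 0 a) := by
  rw [← EE_rep D d F hj n (va j a) a, EE, EE]
  refine av_congr fun x => ?_
  congr 1
  apply rho_congr
  intro u hu w hw
  exact fm_va D d j a x u w

/-- the kernel is not generic -/
def NG (S : Finset ι) (a : Arr ι τ) (x : ι → ZMod 2) : Prop :=
  ∃ κ₁ ∈ kr (fm D d a x) (US D d S), ∃ κ₂ ∈ kr (fm D d a x) (US D d S), Rel D κ₁ κ₂

theorem NG_congr {S : Finset ι} {a a' : Arr ι τ} {x x' : ι → ZMod 2}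
    (h : ∀ u ∈ US D d S, ∀ w ∈ US D d S, fm D d a x u w = fm D d a' x' u w) :
    NG D d S a x ↔ NG D d S a' x' := by
  rw [NG, NG, kr_congr h]

/-- the constant part -/
noncomputable def Cn (j₁ j : ι) (a : Arr ι τ) (x : ι → ZMod 2) (K : Submodule (ZMod 2) (V ι τ)) :
    (K × K) →+ ZMod 2 where
  toFun p := d j * fm D d (rep j 0 a) x p.1.1 (vj j₁ (1, 0)) +
    d j * fm D d (rep j 0 a) x p.2.1 (vj j₁ (0, 1))
  map_zero' := by
    show d j * fm D d (rep j 0 a) x 0 _ + d j * fm D d (rep j 0 a) x 0 _ = 0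
    rw [map_zero, LinearMap.zero_apply, LinearMap.zero_apply, mul_zero, add_zero]
  map_add' p q := by
    show d j * fm D d (rep j 0 a) x (p.1.1 + q.1.1) _ + d j * fm D d (rep j 0 a) x (p.2.1 + q.2.1) _
      = _
    rw [map_add, map_add, LinearMap.add_apply, LinearMap.add_apply]
    ring

end

end Pool.Agent.V8H26.YM
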