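import Pool.Agent.V8H26.YM.Lvl

/-!
# Few squarefree polynomials have all their prime factors of even degree
-/

set_option autoImplicit false
set_option linter.all false

namespace Pool.Agent.V8H26.YM

open Finset Polynomial Pool.Agent.H341R2.Sharp Filter Topology
open Pool.Agent.Y164.PS
open scoped Classical

variable {k : Type} [Field k] [Fintype k] [DecidableEq k]

/-- all prime factors have even degree -/
def ae (D : k[X]) : Prop := ∀ P ∈ pf D, Even P.natDegree

/-- the indicator -/
noncomputable def fe (D : k[X]) : ℝ := if ae D then 1 else 0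

theorem fe_nonneg (D : k[X]) : 0 ≤ fe D := by
  rw [fe]
  split_ifs <;> norm_num

/-- their number -/
noncomputable def es (k : Type) [Field k] [Fintype k] [DecidableEq k] (n : ℕ) : ℝ :=
  ∑ D ∈ Sf k n, fe D

theorem es_nonneg (n : ℕ) : 0 ≤ es k n := sum_nonneg fun _ _ => fe_nonneg _

theorem es_card (n : ℕ) : (((Sf k n).filter ae).card : ℝ) = es k n := by
  rw [es, card_filter]
  push_cast
  rfl

theorem es_odd {n : ℕ} (hn : ¬ Even n) : es k n = 0 := by
  refine sum_eq_zero fun D hD => if_neg fun h => hn ?_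
  rw [← deg_pf hD]
  exact Finset.even_sum _ h

theorem es_rec (hk : ringChar k ≠ 2) (n : ℕ) :
    (n : ℝ) * es k n ≤ ∑ m ∈ Icc 1 n, (if Even m then (Fintype.card k : ℝ) ^ m * es k (n - m)
      else 0) := by
  have h1 : (n : ℝ) * es k n = ∑ P ∈ Irr k n, (P.natDegree : ℝ) *
      ∑ D ∈ (Sf k n).filter (fun D => P ∣ D), fe D := by
    rw [es, mul_sum]
    have h2 : ∀ D ∈ Sf k n, (n : ℝ) * fe D =
        ∑ P ∈ Irr k n, (if P ∣ D then (P.natDegree : ℝ) * fe D else 0) := by
      intro D hD
      rw [← sum_filter, ← sum_mul]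
      congr 1
      have h3 : (Irr k n).filter (fun P => P ∣ D) = pf D := by
        rw [pf, (mem_Sf.1 hD).2.1]
      rw [h3]
      exact_mod_cast (deg_pf hD).symm
    rw [sum_congr rfl h2, sum_comm]
    refine sum_congr rfl fun P _ => ?_
    rw [← sum_filter, mul_sum]
  have h2 : ∀ P ∈ Irr k n, ∑ D ∈ (Sf k n).filter (fun D => P ∣ D), fe D ≤
      (if Even P.natDegree then es k (n - P.natDegree) else 0) := by
    intro P hP
    rw [mem_Irr] at hP
    have h3 : ∑ D ∈ (Sf k n).filter (fun D => P ∣ D), fe D =
        ∑ E ∈ ((Sf k n).filter (fun D => P ∣ D)).image (fun D => D /ₘ P),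
          (if Even P.natDegree then fe E else 0) := by
      rw [sum_image]
      · refine sum_congr rfl fun D hD => ?_
        rw [mem_filter] at hD
        obtain ⟨hD, E, rfl⟩ := hD
        rw [mul_divByMonic_cancel_left _ hP.1]
        obtain ⟨h4, h5, h6⟩ := mul_mem_Sf hP.1 hP.2.1 hD
        have h7 : ae (P * E) ↔ (Even P.natDegree ∧ ae E) := by
          rw [ae, h5, ae]
          constructor
          · intro h
            exact ⟨h P (mem_insert_self _ _), fun Q hQ => h Q (mem_insert_of_mem hQ)⟩
          · rintro ⟨h, h'⟩ Q hQ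
            rw [mem_insert] at hQ
            rcases hQ with rfl | hQ
            · exact h
            · exact h' Q hQ
        rw [fe, fe]
        by_cases h8 : Even P.natDegree
        · rw [if_pos h8]
          by_cases h9 : ae E
          · rw [if_pos (h7.2 ⟨h8, h9⟩), if_pos h9]
          · rw [if_neg (fun h => h9 (h7.1 h).2), if_neg h9]
        · rw [if_neg h8, if_neg (fun h => h8 (h7.1 h).1)]
      · intro D hD D' hD' h
        rw [mem_coe, mem_filter] at hD hD'
        obtain ⟨hD, E, rfl⟩ := hD
        obtain ⟨hD', E', rfl⟩ := hD'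
        simp only at h
        rw [mul_divByMonic_cancel_left _ hP.1, mul_divByMonic_cancel_left _ hP.1] at h
        rw [h]
    rw [h3]
    by_cases h8 : Even P.natDegree
    · simp only [if_pos h8]
      rw [es]
      apply sum_le_sum_of_subset_of_nonneg
      · intro E hE
        rw [mem_image] at hE
        obtain ⟨D, hD, rfl⟩ := hE
        rw [mem_filter] at hD
        obtain ⟨hD, E, rfl⟩ := hD
        rw [mul_divByMonic_cancel_left _ hP.1]
        exact (mul_mem_Sf hP.1 hP.2.1 hD).1
      · intro _ _ _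
        exact fe_nonneg _
    · simp only [if_neg h8, sum_const_zero]
      exact le_rfl
  rw [h1]
  have h3 : ∑ P ∈ Irr k n, (P.natDegree : ℝ) *
      ∑ D ∈ (Sf k n).filter (fun D => P ∣ D), fe D ≤
      ∑ P ∈ Irr k n, (P.natDegree : ℝ) * (if Even P.natDegree then es k (n - P.natDegree) else 0) :=
    sum_le_sum fun P hP => mul_le_mul_of_nonneg_left (h2 P hP) (by positivity)
  refine h3.trans ?_
  have h4 : ∑ P ∈ Irr k n, (P.natDegree : ℝ) *
      (if Even P.natDegree then es k (n - P.natDegree) else 0) =
      ∑ m ∈ Icc 1 n, ∑ P ∈ Pr k m, (P.natDegree : ℝ) *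
        (if Even P.natDegree then es k (n - P.natDegree) else 0) := by
    rw [← sum_biUnion]
    · apply sum_congr _ fun _ _ => rfl
      ext P
      rw [mem_biUnion, mem_Irr]
      constructor
      · rintro ⟨a1, a2, a3⟩
        exact ⟨P.natDegree, mem_Icc.2 ⟨a2.natDegree_pos, a3⟩, mem_Pr.2 ⟨a1, a2, rfl⟩⟩
      · rintro ⟨m, hm, hP⟩
        rw [mem_Pr] at hP
        rw [mem_Icc] at hm
        exact ⟨hP.1, hP.2.1, hP.2.2.trans_le hm.2⟩
    · intro e _ e' _ hne
      rw [Function.onFun, disjoint_left]
      intro P hP hP'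
      rw [mem_Pr] at hP hP'
      exact hne (hP.2.2.symm.trans hP'.2.2)
  rw [h4]
  apply sum_le_sum
  intro m hm
  rw [mem_Icc] at hm
  have h5 : ∑ P ∈ Pr k m, (P.natDegree : ℝ) *
      (if Even P.natDegree then es k (n - P.natDegree) else 0) =
      ((m : ℝ) * (Pr k m).card) * (if Even m then es k (n - m) else 0) := by
    rw [sum_congr rfl (fun P hP => by rw [(mem_Pr.1 hP).2.2]), sum_const, nsmul_eq_mul]
    ring
  rw [h5]
  have h6 := card_Pr_le (k := k) hk m hm.1
  have h7 := es_nonneg (k := k) (n - m)
  by_cases h8 : Even m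
  · rw [if_pos h8, if_pos h8]
    exact mul_le_mul_of_nonneg_right h6 h7
  · rw [if_neg h8, if_neg h8, mul_zero]

theorem es_le (hk : ringChar k ≠ 2) (m : ℕ) : es k (2 * m) ≤ cb m * (Fintype.card k : ℝ) ^ (2 * m) := by
  induction m using Nat.strong_induction_on with
  | _ m ih =>
    rcases Nat.eq_zero_or_pos m with rfl | hm
    · rw [es, mul_zero]
      have h1 : Sf k 0 = {1} := by
        ext D
        rw [mem_Sf, mem_singleton]
        constructor
        · rintro ⟨h1, h2, _⟩
          exact eq_one_of_monic_natDegree_zero h1 h2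
        · rintro rfl
          exact ⟨monic_one, natDegree_one, squarefree_one⟩
      rw [h1, sum_singleton, cb, pow_zero, mul_one, fe]
      split_ifs <;> norm_num
    · have h1 := es_rec (k := k) hk (2 * m)
      have h2 : ∑ j ∈ Icc 1 (2 * m), (if Even j then (Fintype.card k : ℝ) ^ j * es k (2 * m - j)
          else 0) ≤ ∑ i ∈ range m, (Fintype.card k : ℝ) ^ (2 * m) * cb i := by
        rw [← sum_filter]
        have h3 : ∑ j ∈ (Icc 1 (2 * m)).filter Even, (Fintype.card k : ℝ) ^ j * es k (2 * m - j) =
            ∑ i ∈ range m, (Fintype.card k : ℝ) ^ (2 * m - 2 * i) * es k (2 * i) := by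
          refine sum_nbij' (fun j => (2 * m - j) / 2) (fun i => 2 * m - 2 * i) ?_ ?_ ?_ ?_ ?_
          · intro j hj
            rw [mem_filter, mem_Icc] at hj
            obtain ⟨⟨h4, h5⟩, t, h6⟩ := hj
            rw [mem_range]
            omega
          · intro i hi
            rw [mem_range] at hi
            rw [mem_filter, mem_Icc]
            exact ⟨by omega, ⟨m - i, by omega⟩⟩
          · intro j hj
            rw [mem_filter, mem_Icc] at hj
            obtain ⟨⟨h4, h5⟩, t, h6⟩ := hj
            show 2 * m - 2 * ((2 * m - j) / 2) = j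
            omega
          · intro i hi
            rw [mem_range] at hi
            show (2 * m - (2 * m - 2 * i)) / 2 = i
            omega
          · intro j hj
            rw [mem_filter, mem_Icc] at hj
            obtain ⟨⟨h4, h5⟩, t, h6⟩ := hj
            have e1 : 2 * ((2 * m - j) / 2) = 2 * m - j := by omega
            have e2 : 2 * m - (2 * m - j) = j := by omega
            show _ = (Fintype.card k : ℝ) ^ (2 * m - 2 * ((2 * m - j) / 2)) *
              es k (2 * ((2 * m - j) / 2))
            rw [e1, e2]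
        rw [h3]
        apply sum_le_sum
        intro i hi
        rw [mem_range] at hi
        have h4 := ih i hi
        calc (Fintype.card k : ℝ) ^ (2 * m - 2 * i) * es k (2 * i) ≤
              (Fintype.card k : ℝ) ^ (2 * m - 2 * i) * (cb i * (Fintype.card k : ℝ) ^ (2 * i)) :=
              mul_le_mul_of_nonneg_left h4 (by positivity)
          _ = ((Fintype.card k : ℝ) ^ (2 * m - 2 * i) * (Fintype.card k : ℝ) ^ (2 * i)) * cb i := by
              ring
          _ = _ := by
              rw [← pow_add]
              congr 2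
              omega
      rw [← mul_sum] at h2
      have h4 := cb_sum m
      have h5 : (0 : ℝ) < 2 * m := by
        have : (0 : ℝ) < m := by exact_mod_cast hm
        linarith
      have h6 : (2 * (m : ℝ)) * es k (2 * m) ≤ (2 * (m : ℝ)) *
          (cb m * (Fintype.card k : ℝ) ^ (2 * m)) := by
        have h7 : ((2 * m : ℕ) : ℝ) = 2 * (m : ℝ) := by push_cast; rfl
        rw [h7] at h1
        calc (2 * (m : ℝ)) * es k (2 * m) ≤
              (Fintype.card k : ℝ) ^ (2 * m) * ∑ j ∈ range m, cb j := h1.trans h2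
          _ = (Fintype.card k : ℝ) ^ (2 * m) * (2 * ((1 / 2) * ∑ j ∈ range m, cb j)) := by ring
          _ = _ := by rw [← h4]; ring
      exact le_of_mul_le_mul_left h6 h5

theorem cb_lim : Tendsto cb atTop (𝓝 0) := by
  have h1 : ∀ n : ℕ, cb n ≤ 1 / Real.sqrt (2 * n + 1) := by
    intro n
    have h2 : (0 : ℝ) < 2 * n + 1 := by positivity
    rw [le_div_iff₀ (Real.sqrt_pos.2 h2)]
    have h3 := cb_sq n
    have h4 : (cb n * Real.sqrt (2 * n + 1)) ^ 2 ≤ 1 := by
      rw [mul_pow, Real.sq_sqrt h2.le]
      exact h3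
    have h5 : 0 ≤ cb n * Real.sqrt (2 * n + 1) := mul_nonneg (cb_pos n).le (Real.sqrt_nonneg _)
    nlinarith
  refine squeeze_zero (fun n => (cb_pos n).le) h1 ?_
  have h2 : Tendsto (fun n : ℕ => Real.sqrt (2 * n + 1)) atTop atTop := by
    apply Real.tendsto_sqrt_atTop.comp
    apply tendsto_atTop_add_const_right
    exact tendsto_natCast_atTop_atTop.const_mul_atTop (by norm_num)
  exact Tendsto.div_atTop tendsto_const_nhds h2

/-- **few squarefree polynomials have all their prime factors of even degree** -/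
theorem few_even (hk : ringChar k ≠ 2) (δ : ℝ) (hδ : 0 < δ) : ∀ᶠ n : ℕ in atTop,
    (((Sf k n).filter fun D => ¬ OddP D).card : ℝ) ≤ δ * (Fintype.card k : ℝ) ^ n := by
  have h1 : Tendsto (fun n : ℕ => cb (n / 2)) atTop (𝓝 0) :=
    cb_lim.comp (Nat.tendsto_div_const_atTop (by norm_num))
  filter_upwards [h1.eventually_le_const hδ] with n hn
  have h2 : ((Sf k n).filter fun D => ¬ OddP D) ⊆ (Sf k n).filter ae := by
    intro D hD
    rw [mem_filter] at hD ⊢
    refine ⟨hD.1, fun P hP => ?_⟩
    have h3 := (mem_pf (mem_Sf.1 hD.1).1.ne_zero).1 hP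
    by_contra h4
    apply hD.2
    refine ⟨P, h3.1, h3.2.1, h3.2.2, ?_⟩
    rw [Nat.not_even_iff_odd] at h4
    exact (ZMod.natCast_eq_one_iff_odd).2 h4
  have h3 : (((Sf k n).filter fun D => ¬ OddP D).card : ℝ) ≤ es k n := by
    rw [← es_card]
    exact_mod_cast card_le_card h2
  refine h3.trans ?_
  have h4 : (0 : ℝ) ≤ (Fintype.card k : ℝ) ^ n := by positivity
  by_cases h5 : Even n
  · obtain ⟨m, hm⟩ := h5
    have h6 : n = 2 * m := by omega
    have h7 : n / 2 = m := by omega
    rw [h7] at hn
    have h8 := es_le (k := k) hk m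
    rw [← h6] at h8
    exact h8.trans (mul_le_mul_of_nonneg_right hn h4)
  · rw [es_odd h5]
    exact mul_nonneg hδ.le h4

end Pool.Agent.V8H26.YM
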